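import Mathlib

set_option autoImplicit false

namespace Pool.Agent.Results.MP_f77465_pr.NeverUnique

open SimpleGraph

/-- The matching number: the largest number of edges of a matching of `G`. -/
noncomputable def matchingNum {V : Type} (G : SimpleGraph V) : ℕ∞ :=
  ⨆ (M : G.Subgraph) (_ : M.IsMatching), M.edgeSet.encard

/-- `G` is a König graph if its vertex cover number equals its matching number. -/
def IsKonig {V : Type} (G : SimpleGraph V) : Prop :=
  G.vertexCoverNum = matchingNum G

/-- `G` contains a perfect matching. -/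
def HasPerfectMatching {V : Type} (G : SimpleGraph V) : Prop :=
  ∃ M : G.Subgraph, M.IsPerfectMatching

open Classical in
/-- The König graph process driven by the ordering `e` of the edges of the complete graph on
`Fin n`: start from the empty graph; at step `i + 1` add the edge `e i` exactly when the
resulting graph is a König graph. After all edges have been offered the graph stays put. -/
noncomputable def process {n : ℕ} (e : Fin (n.choose 2) ≃ (⊤ : SimpleGraph (Fin n)).edgeSet) :
    ℕ → SimpleGraph (Fin n)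
  | 0 => ⊥
  | i + 1 =>
    if h : i < n.choose 2 then
      if IsKonig (process e i ⊔ fromEdgeSet {(e ⟨i, h⟩ : Sym2 (Fin n))}) then
        process e i ⊔ fromEdgeSet {(e ⟨i, h⟩ : Sym2 (Fin n))}
      else process e i
    else process e i

section general

variable {V : Type} [Finite V] {G : SimpleGraph V}

lemma verts_ncard {M : G.Subgraph} (hM : M.IsMatching) :
    M.verts.ncard = 2 * M.edgeSet.ncard := by
  classical
  have := Fintype.ofFinite V
  have h1 := M.coe.sum_degrees_eq_twice_card_edges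
  have h2 : ∀ (v : M.verts) (inst : Fintype (M.coe.neighborSet v)),
      @SimpleGraph.degree _ M.coe v inst = 1 := by
    intro v inst
    rw [degree_eq_one_iff_existsUnique_adj]
    obtain ⟨w, hw, hu⟩ := hM v.2
    exact ⟨⟨w, M.edge_vert hw.symm⟩, hw, fun y hy => Subtype.ext (hu y hy)⟩
  replace h1 : 2 * M.coe.edgeFinset.card = Fintype.card M.verts := by
    refine h1.symm.trans ?_
    rw [← Finset.card_univ, Finset.card_eq_sum_ones]
    refine Finset.sum_congr rfl ?_
    intro v _
    exact h2 v _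
  have h3 : M.verts.ncard = Fintype.card M.verts := by
    rw [Set.ncard_eq_toFinset_card', Set.toFinset_card]
  have h4 : M.edgeSet.ncard = M.coe.edgeFinset.card := by
    rw [← Subgraph.image_coe_edgeSet_coe, Set.ncard_image_of_injective _
      (Sym2.map.injective Subtype.val_injective), Set.ncard_eq_toFinset_card']
    rfl
  omega

lemma le_matchingNum {M : G.Subgraph} (hM : M.IsMatching) :
    (M.edgeSet.ncard : ℕ∞) ≤ matchingNum G := by
  rw [Set.Finite.cast_ncard_eq (Set.toFinite _)]
  exact le_iSup₂_of_le (f := fun (M : G.Subgraph) (_ : M.IsMatching) => M.edgeSet.encard) M hM le_rfl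

omit [Finite V] in
lemma isMatching_bot : (⊥ : G.Subgraph).IsMatching := by
  intro v hv
  simp at hv

lemma exists_max (G : SimpleGraph V) :
    ∃ M : G.Subgraph, M.IsMatching ∧ (M.edgeSet.ncard : ℕ∞) = matchingNum G := by
  obtain ⟨M, hM, hmax⟩ := Set.exists_max_image {M : G.Subgraph | M.IsMatching}
    (fun M => M.edgeSet.ncard) (Set.toFinite _) ⟨⊥, isMatching_bot⟩
  refine ⟨M, hM, le_antisymm (le_matchingNum hM) ?_⟩
  refine iSup₂_le fun N hN => ?_
  rw [← Set.Finite.cast_ncard_eq (Set.toFinite _)]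
  exact_mod_cast hmax N hN

omit [Finite V] in
/-- Weak duality. -/
lemma matchingNum_le (G : SimpleGraph V) : matchingNum G ≤ G.vertexCoverNum := by
  classical
  refine iSup₂_le fun M hM => ?_
  obtain ⟨c, hc, hcov⟩ := vertexCoverNum_exists G
  rw [← hc]
  have key : ∀ s : M.edgeSet, ∃ v ∈ c, v ∈ (s : Sym2 V) := by
    rintro ⟨s, hs⟩
    induction s using Sym2.ind with
    | h a b =>
      have hab : G.Adj a b := M.adj_sub hs
      rcases hcov hab with h | h
      · exact ⟨a, h, by simp⟩
      · exact ⟨b, h, by simp⟩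
  choose f hf1 hf2 using key
  have hinj : Function.Injective (fun s : M.edgeSet => (⟨f s, hf1 s⟩ : c)) := by
    rintro ⟨s, hs⟩ ⟨t, ht⟩ hst
    have hst' : f ⟨s, hs⟩ = f ⟨t, ht⟩ := congrArg Subtype.val hst
    have h1 := hf2 ⟨s, hs⟩
    have h2 := hf2 ⟨t, ht⟩
    rw [← hst'] at h2
    generalize f ⟨s, hs⟩ = x at h1 h2
    obtain ⟨y, rfl⟩ := Sym2.mem_iff_exists.mp h1
    obtain ⟨z, rfl⟩ := Sym2.mem_iff_exists.mp h2
    have : y = z := hM.eq_of_adj_left hs ht
    subst this
    rfl
  exact Function.Embedding.encard_le ⟨_, hinj⟩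

/-- Replace the edge `y z` of a matching by the edge `x y`. -/
def swapEdge (N : G.Subgraph) (x y z : V) (hxy : G.Adj x y) (hyz : N.Adj y z)
    (hN : N.IsMatching) : G.Subgraph where
  verts := insert x (N.verts \ {z})
  Adj a b := (N.Adj a b ∧ a ≠ y ∧ b ≠ y) ∨ (a = x ∧ b = y) ∨ (a = y ∧ b = x)
  adj_sub := by
    rintro a b (⟨h, -⟩ | ⟨rfl, rfl⟩ | ⟨rfl, rfl⟩)
    · exact N.adj_sub h
    · exact hxy
    · exact hxy.symm
  edge_vert := by
    rintro a b (⟨h, ha, hb⟩ | ⟨rfl, rfl⟩ | ⟨rfl, rfl⟩)
    · refine Or.inr ⟨N.edge_vert h, ?_⟩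
      rintro rfl
      exact hb (hN.eq_of_adj_left h hyz.symm)
    · exact Or.inl rfl
    · exact Or.inr ⟨N.edge_vert hyz, (N.adj_sub hyz).ne⟩
  symm := ⟨by
    rintro a b (⟨h, ha, hb⟩ | ⟨rfl, rfl⟩ | ⟨rfl, rfl⟩)
    · exact Or.inl ⟨h.symm, hb, ha⟩
    · exact Or.inr (Or.inr ⟨rfl, rfl⟩)
    · exact Or.inr (Or.inl ⟨rfl, rfl⟩)⟩

omit [Finite V] in
lemma swapEdge_isMatching (N : G.Subgraph) (x y z : V) (hxy : G.Adj x y) (hyz : N.Adj y z)
    (hN : N.IsMatching) (hx : x ∉ N.verts) : (swapEdge N x y z hxy hyz hN).IsMatching := by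
  have hne : x ≠ y := hxy.ne
  rintro a (rfl | ⟨ha, haz⟩)
  · refine ⟨y, Or.inr (Or.inl ⟨rfl, rfl⟩), ?_⟩
    rintro b (⟨h, -⟩ | ⟨-, rfl⟩ | ⟨h, -⟩)
    · exact absurd (N.edge_vert h) hx
    · rfl
    · exact absurd h hne
  · by_cases hay : a = y
    · subst hay
      refine ⟨x, Or.inr (Or.inr ⟨rfl, rfl⟩), ?_⟩
      rintro b (⟨-, h, -⟩ | ⟨h, -⟩ | ⟨-, rfl⟩)
      · exact absurd rfl h
      · exact absurd h.symm hne
      · rfl
    · obtain ⟨b, hb, hu⟩ := hN ha
      refine ⟨b, Or.inl ⟨hb, hay, ?_⟩, ?_⟩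
      · rintro rfl
        exact haz (hN.eq_of_adj_left hb.symm hyz)
      · rintro c (⟨h, -⟩ | ⟨rfl, -⟩ | ⟨h, -⟩)
        · exact hu c h
        · exact absurd ha hx
        · exact absurd h hay

/-- Adding a disjoint edge to a matching. -/
lemma add_edge (N : G.Subgraph) (hN : N.IsMatching) {x y : V} (hxy : G.Adj x y)
    (hx : x ∉ N.verts) (hy : y ∉ N.verts) :
    ∃ N' : G.Subgraph, N'.IsMatching ∧ N'.verts = insert x (insert y N.verts) ∧
      N'.edgeSet.ncard = N.edgeSet.ncard + 1 := by
  have hm : (N ⊔ G.subgraphOfAdj hxy).IsMatching := by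
    refine hN.sup (Subgraph.IsMatching.subgraphOfAdj hxy) ?_
    rw [hN.support_eq_verts, (Subgraph.IsMatching.subgraphOfAdj hxy).support_eq_verts]
    simp [Set.disjoint_left]
    intro a ha
    constructor <;> rintro rfl <;> contradiction
  have hv : (N ⊔ G.subgraphOfAdj hxy).verts = insert x (insert y N.verts) := by
    ext a
    simp only [Subgraph.verts_sup, subgraphOfAdj_verts, Set.mem_union, Set.mem_insert_iff,
      Set.mem_singleton_iff]
    tauto
  refine ⟨_, hm, hv, ?_⟩
  have h1 := verts_ncard hm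
  have h2 := verts_ncard hN
  rw [hv, Set.ncard_insert_of_notMem (by simp [hxy.ne, hx]), Set.ncard_insert_of_notMem hy] at h1
  omega

/-- The vertex set of a matching lies in the vertex set of a maximum matching. -/
lemma exists_max_superset {M : G.Subgraph} (hM : M.IsMatching) :
    ∃ N : G.Subgraph, N.IsMatching ∧ (N.edgeSet.ncard : ℕ∞) = matchingNum G ∧
      M.verts ⊆ N.verts := by
  obtain ⟨N₀, hN₀, hN₀'⟩ := exists_max G
  obtain ⟨N, ⟨hN, hmax⟩, hbest⟩ := Set.exists_max_image
    {N : G.Subgraph | N.IsMatching ∧ (N.edgeSet.ncard : ℕ∞) = matchingNum G}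
    (fun N => {p : V × V | M.Adj p.1 p.2 ∧ N.Adj p.1 p.2}.ncard) (Set.toFinite _) ⟨N₀, hN₀, hN₀'⟩
  refine ⟨N, hN, hmax, fun x hxM => ?_⟩
  by_contra hx
  obtain ⟨y, hxy, -⟩ := hM hxM
  by_cases hy : y ∈ N.verts
  · obtain ⟨z, hyz, -⟩ := hN hy
    have hm := swapEdge_isMatching N x y z (M.adj_sub hxy) hyz hN hx
    set N' := swapEdge N x y z (M.adj_sub hxy) hyz hN with hN'
    have hv : N'.verts.ncard = N.verts.ncard := by
      have hz : z ∈ N.verts := N.edge_vert hyz.symm
      show (insert x (N.verts \ {z})).ncard = _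
      rw [Set.ncard_insert_of_notMem (fun h => hx h.1), Set.ncard_sdiff_singleton_add_one hz]
    have he : N'.edgeSet.ncard = N.edgeSet.ncard := by
      have h1 := verts_ncard hm
      have h2 := verts_ncard hN
      omega
    have hle := hbest N' ⟨hm, by rw [he, hmax]⟩
    refine absurd hle (not_le.mpr (Set.ncard_lt_ncard ⟨?_, ?_⟩ (Set.toFinite _)))
    · rintro ⟨a, b⟩ ⟨h1, h2⟩
      refine ⟨h1, Or.inl ⟨h2, ?_, ?_⟩⟩
      · rintro rfl
        have : b = x := hM.eq_of_adj_left h1 hxy.symm
        subst this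
        exact hx (N.edge_vert h2.symm)
      · rintro rfl
        have : a = x := hM.eq_of_adj_left h1.symm hxy.symm
        subst this
        exact hx (N.edge_vert h2)
    · intro hsub
      have : ((x, y) : V × V) ∈ {p : V × V | M.Adj p.1 p.2 ∧ N'.Adj p.1 p.2} :=
        ⟨hxy, Or.inr (Or.inl ⟨rfl, rfl⟩)⟩
      exact hx (N.edge_vert (hsub this).2)
  · obtain ⟨N', hN', -, hc⟩ := add_edge N hN (M.adj_sub hxy) hx hy
    have h1 := le_matchingNum hN'
    rw [← hmax, hc] at h1
    have : N.edgeSet.ncard + 1 ≤ N.edgeSet.ncard := by exact_mod_cast h1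
    omega

omit [Finite V] in
lemma cover_insert_left {c : Set V} (hc : G.IsVertexCover c) (u v : V) :
    (G ⊔ fromEdgeSet {s(u, v)}).IsVertexCover (insert u c) := by
  rintro a b (h | h)
  · rcases hc h with h | h
    · exact Or.inl (Or.inr h)
    · exact Or.inr (Or.inr h)
  · rw [fromEdgeSet_adj, Set.mem_singleton_iff, Sym2.eq_iff] at h
    rcases h.1 with ⟨rfl, -⟩ | ⟨-, rfl⟩
    · exact Or.inl (Or.inl rfl)
    · exact Or.inr (Or.inl rfl)

omit [Finite V] in
lemma cover_of_mem {c : Set V} (hc : G.IsVertexCover c) {u : V} (v : V) (hu : u ∈ c) :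
    (G ⊔ fromEdgeSet {s(u, v)}).IsVertexCover c := by
  have := cover_insert_left hc u v
  rwa [Set.insert_eq_of_mem hu] at this

/-- Lifting a matching to a supergraph. -/
lemma lift_matching {G' : SimpleGraph V} (h : G ≤ G') {M : G.Subgraph} (hM : M.IsMatching) :
    ∃ M' : G'.Subgraph, M'.IsMatching ∧ M'.verts = M.verts ∧
      M'.edgeSet.ncard = M.edgeSet.ncard := by
  have hm := hM.map_ofLE h
  have hv : (M.map (Hom.ofLE h)).verts = M.verts := by simp
  refine ⟨_, hm, hv, ?_⟩
  have h1 := verts_ncard hm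
  have h2 := verts_ncard hM
  rw [hv] at h1
  omega

/-- An edge between two vertices missed by a maximum matching of a König graph is accepted. -/
lemma accept (hG : IsKonig G) {N : G.Subgraph} (hN : N.IsMatching)
    (hmax : (N.edgeSet.ncard : ℕ∞) = matchingNum G) {u v : V} (huv : u ≠ v)
    (hu : u ∉ N.verts) (hv : v ∉ N.verts) :
    IsKonig (G ⊔ fromEdgeSet {s(u, v)}) ∧
      ∃ N' : (G ⊔ fromEdgeSet {s(u, v)}).Subgraph, N'.IsMatching ∧
        N'.verts = insert u (insert v N.verts) := by
  obtain ⟨N₁, hN₁, hv₁, he₁⟩ := lift_matching (G' := G ⊔ fromEdgeSet {s(u, v)}) le_sup_left hN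
  have hadj : (G ⊔ fromEdgeSet {s(u, v)}).Adj u v := Or.inr (by simp [huv])
  obtain ⟨N', hN', hv', he'⟩ := add_edge N₁ hN₁ hadj (hv₁ ▸ hu) (hv₁ ▸ hv)
  refine ⟨le_antisymm ?_ (matchingNum_le _), N', hN', by rw [hv', hv₁]⟩
  obtain ⟨c, hc, hcov⟩ := vertexCoverNum_exists G
  calc (G ⊔ fromEdgeSet {s(u, v)}).vertexCoverNum ≤ (insert u c).encard :=
        (cover_insert_left hcov u v).vertexCoverNum_le
    _ ≤ c.encard + 1 := Set.encard_insert_le _ _
    _ = (N'.edgeSet.ncard : ℕ∞) := by
        rw [hc, hG, ← hmax, he', he₁]; push_cast; rfl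
    _ ≤ _ := le_matchingNum hN'

end general

section proc

variable {n : ℕ} (e : Fin (n.choose 2) ≃ (⊤ : SimpleGraph (Fin n)).edgeSet)

lemma konig_process (i : ℕ) : IsKonig (process e i) := by
  induction i with
  | zero =>
    refine le_antisymm ?_ (matchingNum_le _)
    show (⊥ : SimpleGraph (Fin n)).vertexCoverNum ≤ _
    rw [vertexCoverNum_eq_zero.mpr rfl]
    exact zero_le
  | succ i ih =>
    rw [process]
    split_ifs with h1 h2
    · exact h2
    · exact ih
    · exact ih

lemma process_le_succ (i : ℕ) : process e i ≤ process e (i + 1) := by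
  rw [process]
  split_ifs
  · exact le_sup_left
  · exact le_rfl
  · exact le_rfl

lemma invariant (i : ℕ) : ∃ M : (process e i).Subgraph, M.IsMatching ∧
    ∀ j : Fin (n.choose 2), j.1 < i → ∃ w ∈ M.verts, w ∈ (e j : Sym2 (Fin n)) := by
  induction i with
  | zero => exact ⟨⊥, isMatching_bot, fun j hj => absurd hj (Nat.not_lt_zero _)⟩
  | succ i ih =>
    obtain ⟨M, hM, hcov⟩ := ih
    obtain ⟨N, hN, hmax, hsub⟩ := exists_max_superset hM
    have hcovN : ∀ j : Fin (n.choose 2), j.1 < i → ∃ w ∈ N.verts, w ∈ (e j : Sym2 (Fin n)) := by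
      intro j hj
      obtain ⟨w, hw, hw'⟩ := hcov j hj
      exact ⟨w, hsub hw, hw'⟩
    by_cases h : i < n.choose 2
    · by_cases hmeet : ∃ w ∈ N.verts, w ∈ (e ⟨i, h⟩ : Sym2 (Fin n))
      · obtain ⟨N', hN', hv, -⟩ := lift_matching (process_le_succ e i) hN
        refine ⟨N', hN', fun j hj => ?_⟩
        rw [hv]
        rcases Nat.lt_succ_iff_lt_or_eq.mp hj with hj | hj
        · exact hcovN j hj
        · have : j = ⟨i, h⟩ := Fin.ext hj
          rw [this]; exact hmeet
      · obtain ⟨u, v, huv, hs⟩ : ∃ u v : Fin n, u ≠ v ∧ (e ⟨i, h⟩ : Sym2 (Fin n)) = s(u, v) := by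
          obtain ⟨s, hs⟩ := e ⟨i, h⟩
          induction s using Sym2.ind with
          | h a b => exact ⟨a, b, by simpa using hs, rfl⟩
        have hu : u ∉ N.verts := fun hu => hmeet ⟨u, hu, by simp [hs]⟩
        have hv : v ∉ N.verts := fun hv => hmeet ⟨v, hv, by simp [hs]⟩
        obtain ⟨hK, N', hN', hv'⟩ := accept (konig_process e i) hN hmax huv hu hv
        have heq : process e (i + 1) = process e i ⊔ fromEdgeSet {s(u, v)} := by
          rw [process, dif_pos h, hs, if_pos hK]
        obtain ⟨N'', hN'', hv'', -⟩ := lift_matching heq.ge hN'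
        refine ⟨N'', hN'', fun j hj => ?_⟩
        rw [hv'', hv']
        rcases Nat.lt_succ_iff_lt_or_eq.mp hj with hj | hj
        · obtain ⟨w, hw, hw'⟩ := hcovN j hj
          exact ⟨w, Or.inr (Or.inr hw), hw'⟩
        · have : j = ⟨i, h⟩ := Fin.ext hj
          rw [this, hs]
          exact ⟨u, Or.inl rfl, by simp⟩
    · obtain ⟨N', hN', hv, -⟩ := lift_matching (process_le_succ e i) hN
      refine ⟨N', hN', fun j hj => ?_⟩
      rw [hv]
      exact hcovN j (by have := j.2; omega)

lemma final_perfect (hn : Even n) : HasPerfectMatching (process e (n.choose 2)) := by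
  obtain ⟨M, hM, hcov⟩ := invariant e (n.choose 2)
  refine ⟨M, hM, fun x => ?_⟩
  by_contra hx
  have hall : M.verts = Set.univ \ {x} := by
    ext y
    simp only [Set.mem_sdiff, Set.mem_univ, Set.mem_singleton_iff, true_and]
    constructor
    · rintro hy rfl
      exact hx hy
    · intro hy
      obtain ⟨w, hw, hw'⟩ := hcov (e.symm ⟨s(x, y), by simpa using Ne.symm hy⟩) (Fin.is_lt _)
      simp only [Equiv.apply_symm_apply, Sym2.mem_iff] at hw'
      rcases hw' with rfl | rfl
      · exact absurd hw hx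
      · exact hw
  have h1 := verts_ncard hM
  have h2 := Set.ncard_sdiff_singleton_add_one (Set.mem_univ x)
  rw [← hall, Set.ncard_univ, Nat.card_eq_fintype_card, Fintype.card_fin] at h2
  obtain ⟨k, hk⟩ := hn
  omega

end proc

/-- For every even `n ≥ 2` and every ordering of the edges of `K_n`, the König graph process
contains a perfect matching at some first time `T ≤ C(n,2)`, and `G_T` has vertex cover number
`n / 2` and at least two distinct vertex covers of that size. -/
theorem result (n : ℕ) (hn : Even n) (h2 : 2 ≤ n)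
    (e : Fin (n.choose 2) ≃ (⊤ : SimpleGraph (Fin n)).edgeSet) :
    ∃ T : ℕ, T ≤ n.choose 2 ∧ HasPerfectMatching (process e T) ∧
      (∀ i < T, ¬ HasPerfectMatching (process e i)) ∧
      (process e T).vertexCoverNum = ((n / 2 : ℕ) : ℕ∞) ∧
      ∃ C₁ C₂ : Set (Fin n), C₁ ≠ C₂ ∧
        (process e T).IsVertexCover C₁ ∧ C₁.encard = (process e T).vertexCoverNum ∧
        (process e T).IsVertexCover C₂ ∧ C₂.encard = (process e T).vertexCoverNum := by
  classical
  have hex : ∃ T, HasPerfectMatching (process e T) := ⟨_, final_perfect e hn⟩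
  have hTle : Nat.find hex ≤ n.choose 2 := Nat.find_min' hex (final_perfect e hn)
  have hT := Nat.find_spec hex
  have hmin : ∀ i < Nat.find hex, ¬ HasPerfectMatching (process e i) :=
    fun i hi => Nat.find_min hex hi
  refine ⟨Nat.find hex, hTle, hT, hmin, ?_⟩
  generalize Nat.find hex = T at hTle hT hmin
  obtain ⟨k, hk⟩ := hn
  have huniv : (Set.univ : Set (Fin n)).ncard = n := by
    rw [Set.ncard_univ, Nat.card_eq_fintype_card, Fintype.card_fin]
  have hbound : ∀ (G : SimpleGraph (Fin n)) (M : G.Subgraph), M.IsMatching →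
      M.edgeSet.ncard ≤ k := by
    intro G M hM
    have h1 := verts_ncard hM
    have h3 : M.verts.ncard ≤ (Set.univ : Set (Fin n)).ncard :=
      Set.ncard_le_ncard (Set.subset_univ _) (Set.toFinite _)
    omega
  have htau : (process e T).vertexCoverNum = (k : ℕ∞) := by
    rw [konig_process e T]
    obtain ⟨M, hM, hsp⟩ := hT
    obtain ⟨N, hN, hmax⟩ := exists_max (process e T)
    have h1 := verts_ncard hM
    rw [Set.eq_univ_of_forall hsp, huniv] at h1
    have h3 := le_matchingNum hM
    rw [← hmax] at h3 ⊢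
    have h4 : M.edgeSet.ncard ≤ N.edgeSet.ncard := by exact_mod_cast h3
    have h5 := hbound _ N hN
    have : N.edgeSet.ncard = k := by omega
    rw [this]
  refine ⟨by rw [htau]; congr 1; omega, ?_⟩
  rcases T with _ | i
  · exfalso
    obtain ⟨M, hM, hsp⟩ := hT
    obtain ⟨w, hw, -⟩ := hM (hsp ⟨0, by omega⟩)
    exact M.adj_sub hw
  · have hno := hmin i (Nat.lt_succ_self i)
    have h : i < n.choose 2 := hTle
    obtain ⟨u, v, huv, hs⟩ : ∃ u v : Fin n, u ≠ v ∧ (e ⟨i, h⟩ : Sym2 (Fin n)) = s(u, v) := by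
      obtain ⟨s, hs⟩ := e ⟨i, h⟩
      induction s using Sym2.ind with
      | h a b => exact ⟨a, b, by simpa using hs, rfl⟩
    have heq : process e (i + 1) = process e i ⊔ fromEdgeSet {s(u, v)} := by
      by_cases hK : IsKonig (process e i ⊔ fromEdgeSet {s(u, v)})
      · rw [process, dif_pos h, hs, if_pos hK]
      · exfalso
        have : process e (i + 1) = process e i := by rw [process, dif_pos h, hs, if_neg hK]
        rw [this] at hT
        exact hno hT
    obtain ⟨N, hN, hmax⟩ := exists_max (process e i)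
    have hlt : N.edgeSet.ncard < k := by
      refine lt_of_le_of_ne (hbound _ N hN) fun hEq => hno ⟨N, hN, ?_⟩
      have h1 := verts_ncard hN
      have h3 : N.verts = Set.univ :=
        Set.eq_of_subset_of_ncard_le (Set.subset_univ _) (by omega) (Set.toFinite _)
      intro x
      rw [h3]; trivial
    obtain ⟨c, hc, hcov⟩ := vertexCoverNum_exists (process e i)
    rw [konig_process e i, ← hmax] at hc
    have hnot : ¬ (process e (i + 1)).IsVertexCover c := by
      intro hcc
      have h1 := hcc.vertexCoverNum_le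
      rw [htau, hc] at h1
      have : k ≤ N.edgeSet.ncard := by exact_mod_cast h1
      omega
    have hu : u ∉ c := fun hu => hnot (heq ▸ cover_of_mem hcov v hu)
    have hv : v ∉ c := fun hv => hnot (by
      rw [heq, Sym2.eq_swap]; exact cover_of_mem hcov u hv)
    have hcu : (process e (i + 1)).IsVertexCover (insert u c) := heq ▸ cover_insert_left hcov u v
    have hcv : (process e (i + 1)).IsVertexCover (insert v c) := by
      rw [heq, Sym2.eq_swap]; exact cover_insert_left hcov v u
    have hsize : ∀ w, w ∉ c → (process e (i + 1)).IsVertexCover (insert w c) →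
        (insert w c).encard = (process e (i + 1)).vertexCoverNum := by
      intro w hw hcw
      refine le_antisymm ?_ hcw.vertexCoverNum_le
      rw [Set.encard_insert_of_notMem hw, hc, htau]
      exact_mod_cast hlt
    refine ⟨insert u c, insert v c, ?_, hcu, hsize u hu hcu, hcv, hsize v hv hcv⟩
    intro hEq
    have : u ∈ insert v c := hEq ▸ Set.mem_insert u c
    rcases this with h' | h'
    · exact huv h'
    · exact hu h'

end Pool.Agent.Results.MP_f77465_pr.NeverUnique
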